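import Mathlib
import Pool.Agent.Work.MP_ecc80d_co.Defs

/-!
# Random Maker against an arbitrary Breaker: the lower bound `(2 - ε) ln N` — interface

Every `Stmt_X` below is a block; prove `theorem stmt_X : Stmt_X` (blocks may use other blocks as
hypotheses exactly as listed in BLUEPRINT.md).
-/

namespace Pool.Agent.RandomMakerFull

open Finset Filter
open Pool.Agent.RandomMaker (BreakerStrategy claimed makerSet cliqueProb winProb minProb)

/-! ## A. Random subsets of a finite type -/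

section Law

variable {ι : Type} [Fintype ι] [DecidableEq ι]

/-- `p` is a probability distribution on the subsets of `ι`. -/
structure IsLaw (p : Finset ι → ℝ) : Prop where
  nonneg : ∀ M, 0 ≤ p M
  sum_one : ∑ M, p M = 1

/-- Expectation of `F` (random set). -/
noncomputable def Ex (p : Finset ι → ℝ) (F : Finset ι → ℝ) : ℝ := ∑ M, p M * F M

open Classical in
/-- Probability of the event `B`. -/
noncomputable def Pr (p : Finset ι → ℝ) (B : Finset ι → Prop) : ℝ :=
  Ex p fun M => if B M then 1 else 0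

/-- Probability that the random set agrees with `M` on `S`. -/
noncomputable def mg (p : Finset ι → ℝ) (S M : Finset ι) : ℝ :=
  ∑ M' with M' ∩ S = M ∩ S, p M'

/-- Conditional probability that `e` is in the random set, given that the random set agrees with
`M` on `S`. -/
noncomputable def cp (p : Finset ι → ℝ) (S : Finset ι) (e : ι) (M : Finset ι) : ℝ :=
  (∑ M' with M' ∩ S = M ∩ S ∧ e ∈ M', p M') / mg p S M

/-- Entropy (natural logarithm) of the trace of the random set on `S`. -/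
noncomputable def ent (p : Finset ι → ℝ) (S : Finset ι) : ℝ := Ex p fun M => -Real.log (mg p S M)

/-- Conditional entropy of the status of `e` given the trace on `S \ {e}` (for `e ∈ S`). -/
noncomputable def dent (p : Finset ι → ℝ) (S : Finset ι) (e : ι) : ℝ :=
  ent p S - ent p (S.erase e)

/-- Indicator of `e ∈ M`. -/
noncomputable def ind (e : ι) (M : Finset ι) : ℝ := if e ∈ M then 1 else 0

/-- Total correlation of the statuses of the elements of `A` given the trace on `S`. -/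
noncomputable def TC (p : Finset ι → ℝ) (S A : Finset ι) : ℝ :=
  ∑ e ∈ A, (ent p (insert e S) - ent p S) - (ent p (S ∪ A) - ent p S)

end Law

open Classical in
/-- Probability of the event `B` for the random subset of `A` which contains every `e`
independently with probability `a e`. -/
noncomputable def pr {ι : Type} [DecidableEq ι] (A : Finset ι) (a : ι → ℝ)
    (B : Finset ι → Prop) : ℝ :=
  ∑ T ∈ A.powerset with B T, (∏ e ∈ T, a e) * ∏ e ∈ A \ T, (1 - a e)

/-- Block ENT: entropy decrements are in `[0, log 2]`; submodularity with Pinsker's inequality;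
bounds of conditional probabilities; the defining property of conditional probabilities. -/
def Stmt_ENT : Prop :=
  ∀ (ι : Type) [Fintype ι] [DecidableEq ι] (p : Finset ι → ℝ), IsLaw p →
    (∀ (S : Finset ι) (e : ι), 0 ≤ dent p S e ∧ dent p S e ≤ Real.log 2) ∧
    (∀ (S T : Finset ι) (e : ι), S ⊆ T → e ∈ S →
      2 * Ex p (fun M => (cp p (T.erase e) e M - cp p (S.erase e) e M) ^ 2) ≤
        dent p S e - dent p T e) ∧
    (∀ (S : Finset ι) (e : ι) (M : Finset ι), 0 ≤ cp p S e M ∧ cp p S e M ≤ 1) ∧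
    (∀ (S : Finset ι) (e : ι) (F : Finset ι → ℝ),
      (∀ M M', M ∩ S = M' ∩ S → F M = F M') →
        Ex p (fun M => F M * ind e M) = Ex p (fun M => F M * cp p S e M))

/-- Block KLE: (1) the total correlation is bounded by entropy decrements;
(2) comparison of the law with the product of its conditional marginals: if, whenever `G` (an
event depending only on the trace on `S`) holds, the product measure gives probability at most
`exp (-Λ)` to `B`, then `Λ * P(G and B)` is at most the total correlation plus `log 2`. -/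
def Stmt_KLE : Prop :=
  ∀ (ι : Type) [Fintype ι] [DecidableEq ι] (p : Finset ι → ℝ), IsLaw p →
    ∀ (S A : Finset ι), Disjoint S A →
      (TC p S A ≤ ∑ e ∈ A, (dent p (insert e S) e - dent p (S ∪ A) e)) ∧
      ∀ (G B : Finset ι → Prop) (Λ : ℝ), 0 ≤ Λ →
        (∀ M M', M ∩ S = M' ∩ S → G M → G M') →
        (∀ M, G M → pr A (fun e => cp p S e M) B ≤ Real.exp (-Λ)) →
          Λ * Pr p (fun M => G M ∧ B (M ∩ A)) ≤ TC p S A + Real.log 2

/-! ## B. The law of Maker's final set -/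

/-- The distribution of Maker's final set when Breaker follows `σ`. -/
noncomputable def law {α : Type} [DecidableEq α] (E : Finset α) (σ : BreakerStrategy E)
    (M : Finset α) : ℝ :=
  Pool.Agent.RandomMaker.expect E σ (fun M' => if M' = M then 1 else 0) E.card []

/-- The potential of a weight `w` on `E`: `(∑_{i ≤ j} min (w_i, w_j)) / (|E| + 1)`. -/
noncomputable def potV {α : Type} (E : Finset α) (w : α → ℝ) : ℝ :=
  (∑ e ∈ E, ∑ e' ∈ E, min (w e) (w e') + ∑ e ∈ E, w e) / (2 * ((E.card : ℝ) + 1))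

/-- Block LB: the law of Maker's final set, and the lower tail of the weight of Maker's set. -/
def Stmt_LB : Prop :=
  ∀ (α : Type) [Fintype α] [DecidableEq α] (E : Finset α) (σ : BreakerStrategy E),
    IsLaw (law E σ) ∧ (∀ M, ¬ M ⊆ E → law E σ M = 0) ∧
    (∀ f : Finset α → ℝ, Pool.Agent.RandomMaker.expect E σ f E.card [] = Ex (law E σ) f) ∧
    ∀ (w : α → ℝ) (W δ : ℝ), (∀ e, 0 ≤ w e ∧ w e ≤ W) → 0 < δ → δ ≤ W →
      Pr (law E σ) (fun M => ∑ e ∈ M, w e < potV E w - δ * E.card) ≤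
        Real.exp (-(δ ^ 2 * E.card / (32 * W ^ 2)))

/-- Block JEN: a discrete Jensen inequality. -/
def Stmt_JEN : Prop :=
  ∀ (α : Type) (S : Finset α) (w : α → ℝ) (C : ℝ), S.Nonempty → (∀ e ∈ S, 0 < w e) → 0 < C →
    (∑ e ∈ S, ∑ e' ∈ S, min (w e) (w e') + ∑ e ∈ S, w e) / 2 ≤ C * (S.card : ℝ) ^ 2 →
      ∑ e ∈ S, Real.log (w e) ≤ S.card * (1 + Real.log C)

/-! ## C. Vertex sets and edges -/

section Graph

variable {N : ℕ}

/-- The edges inside the vertex set `X`. -/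
def eIn (X : Finset (Fin N)) : Finset (Sym2 (Fin N)) := X.sym2.filter (fun e => ¬ e.IsDiag)

/-- The edges inside `Q ∪ e` other than `e`. -/
def ctx (Q : Finset (Fin N)) (e : Sym2 (Fin N)) : Finset (Sym2 (Fin N)) :=
  (eIn (Q ∪ e.toFinset)).erase e

/-- Conditional probability of the edge `e` given the statuses of the edges inside `Q ∪ e`
other than `e`. -/
noncomputable def aQ (p : Finset (Sym2 (Fin N)) → ℝ) (Q : Finset (Fin N)) (e : Sym2 (Fin N))
    (M : Finset (Sym2 (Fin N))) : ℝ :=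
  cp p (ctx Q e) e M

/-- The truncated logarithmic cost. -/
noncomputable def fb (b a : ℝ) : ℝ := max 0 (-Real.log (a + b))

/-- The cost event for the outcome `M` and the vertex set `Q`: the average cost of the edges
outside `Q` is at most `1 + 5 δ`, and there are few edges with tiny conditional probability. -/
def CostOK (p : Finset (Sym2 (Fin N)) → ℝ) (δ b b₁ : ℝ) (Q : Finset (Fin N))
    (M : Finset (Sym2 (Fin N))) : Prop :=
  (∑ e ∈ eIn Qᶜ, fb b (aQ p Q e M) ≤ (1 + 5 * δ) * (eIn Qᶜ).card) ∧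
  (∑ e ∈ eIn Qᶜ, (if aQ p Q e M < b₁ then (1 : ℝ) else 0) ≤
    3 * Real.sqrt (b₁ + b) * (eIn Qᶜ).card)

end Graph

/-- Block COST: for a fixed vertex set `Q` the cost event fails with small probability. -/
def Stmt_COST : Prop :=
  ∀ (N : ℕ) (σ : BreakerStrategy (⊤ : SimpleGraph (Fin N)).edgeFinset) (Q : Finset (Fin N))
    (δ b b₁ : ℝ), 0 < δ → δ ≤ 1 / 4 → 0 < b → b ≤ δ → 0 < b₁ → b₁ + b ≤ 1 →
    (Q.card : ℝ) ≤ δ * N / 16 → 100 / δ ≤ N →
      Pr (law _ σ) (fun M => ¬ CostOK (law _ σ) δ b b₁ Q M) ≤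
        2 ^ (Q.card * N) * Real.exp (-(δ ^ 2 * b ^ 2 * (N.choose 2 : ℕ) / 32)) +
        Ex (law _ σ) (fun M => (∑ e ∈ eIn Qᶜ,
          (ind e M - aQ (law _ σ) Q e M) * (aQ (law _ σ) Q e M + b)⁻¹) ^ 2) /
          (δ * (eIn Qᶜ).card) ^ 2

/-! ## D. Averages over orderings of the vertices -/

section Avg

variable {N : ℕ}

/-- Average over all permutations. -/
noncomputable def avg (F : Equiv.Perm (Fin N) → ℝ) : ℝ := (∑ π, F π) / (N.factorial : ℝ)

/-- The first `k` indices. -/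
def ini (N k : ℕ) : Finset (Fin N) := univ.filter (fun i => i.val < k)

/-- The indices `R, ..., R + n - 1`. -/
def mid (N R n : ℕ) : Finset (Fin N) := univ.filter (fun i => R ≤ i.val ∧ i.val < R + n)

/-- The vertices of the index set `I` in the ordering `π`. -/
def im (π : Equiv.Perm (Fin N)) (I : Finset (Fin N)) : Finset (Fin N) := I.map π.toEmbedding

/-- Average of `F (X, e)` over all `k`-sets `X` of vertices and edges `e` inside `X`. -/
noncomputable def Phi (F : Finset (Fin N) → Sym2 (Fin N) → ℝ) (k : ℕ) : ℝ :=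
  avg fun π => (∑ e ∈ eIn (im π (ini N k)), F (im π (ini N k)) e) / (eIn (im π (ini N k))).card

/-- Average conditional entropy of an edge inside a random `k`-set of vertices, given all other
edges inside the set. -/
noncomputable def Psi (p : Finset (Sym2 (Fin N)) → ℝ) (k : ℕ) : ℝ :=
  Phi (fun X e => dent p (eIn X) e) k

/-- The edges inside `Q ∪ A` which touch `Q`. -/
def thE (Q A : Finset (Fin N)) : Finset (Sym2 (Fin N)) := eIn (Q ∪ A) \ eIn A

end Avg

/-- Block REL: relabelling. -/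
def Stmt_REL : Prop :=
  ∀ (N : ℕ) (F : Finset (Fin N) → Sym2 (Fin N) → ℝ) (I : Finset (Fin N)) (z : Sym2 (Fin N)),
    z ∈ eIn I → avg (fun π => F (im π I) (z.map π)) = Phi F I.card

/-- Block TRANS: the average over the edges inside a random `A` of a function of `(Q, e)` is the
average over all edges outside `Q`. -/
def Stmt_TRANS : Prop :=
  ∀ (N R n : ℕ) (g : Finset (Fin N) → Sym2 (Fin N) → ℝ), 2 ≤ n → R + n ≤ N →
    avg (fun π => (∑ e ∈ eIn (im π (mid N R n)), g (im π (ini N R)) e) / (n.choose 2 : ℕ)) =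
    avg (fun π => (∑ e ∈ eIn (im π (ini N R))ᶜ, g (im π (ini N R)) e) /
      (eIn (im π (ini N R))ᶜ).card)

/-- Block PIG: monotonicity of `Psi` and the pigeonhole principle. -/
def Stmt_PIG : Prop :=
  ∀ (N : ℕ) (p : Finset (Sym2 (Fin N)) → ℝ), IsLaw p →
    (∀ k k', 2 ≤ k → k ≤ k' → Psi p k' ≤ Psi p k) ∧
    (∀ L n : ℕ, 1 ≤ L → ∃ R : ℕ, R + n ≤ L * n ∧
      Psi p (R + 2) - Psi p (R + n + 2) ≤ Real.log 2 / L)

/-- Block AVA: average total correlation and average change of the conditional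
probabilities. -/
def Stmt_AVA : Prop :=
  ∀ (N : ℕ) (p : Finset (Sym2 (Fin N)) → ℝ), IsLaw p → ∀ R n : ℕ, 2 ≤ n → R + n ≤ N →
    (avg (fun π => TC p (thE (im π (ini N R)) (im π (mid N R n))) (eIn (im π (mid N R n)))) ≤
      (n.choose 2 : ℕ) * (Psi p (R + 2) - Psi p (R + n))) ∧
    (avg (fun π => ∑ e ∈ eIn (im π (mid N R n)),
        Ex p (fun M => |cp p (thE (im π (ini N R)) (im π (mid N R n))) e M -
          aQ p (im π (ini N R)) e M|)) ≤
      (n.choose 2 : ℕ) * Real.sqrt (Psi p (R + 2) - Psi p (R + n)))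

/-- Block AVB: second moment of the calibration error. -/
def Stmt_AVB : Prop :=
  ∀ (N : ℕ) (p : Finset (Sym2 (Fin N)) → ℝ), IsLaw p → ∀ R : ℕ, R + 4 ≤ N →
    ∀ (w : ℝ → ℝ) (W : ℝ), (∀ x, 0 ≤ x → x ≤ 1 → 0 ≤ w x ∧ w x ≤ W) →
      avg (fun π => Ex p (fun M => (∑ e ∈ eIn (im π (ini N R))ᶜ,
        (ind e M - aQ p (im π (ini N R)) e M) * w (aQ p (im π (ini N R)) e M)) ^ 2) /
          ((eIn (im π (ini N R))ᶜ).card : ℝ) ^ 2) ≤
      W ^ 2 * (Real.sqrt (Psi p (R + 2) - Psi p (R + 4)) + 4 / ((N : ℝ) - R))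

/-! ## E. Cliques in product measures -/

/-- Block PACK: a family of sets of edges which is spread with respect to the product measure
contains no alive member only with exponentially small probability. -/
def Stmt_PACK : Prop :=
  ∀ (ι κ : Type) [DecidableEq ι] [DecidableEq κ] (A : Finset ι) (a : ι → ℝ) (𝒢 : Finset κ)
    (Ed : κ → Finset ι) (ρ : ℝ), A.Nonempty → (∀ e, 0 ≤ a e ∧ a e ≤ 1) → 0 < ρ →
    (∀ x ∈ 𝒢, Ed x ⊆ A ∧ (Ed x).Nonempty ∧ ρ ≤ ∏ e ∈ Ed x, a e) →
    (∀ x ∈ 𝒢, ∑ y ∈ 𝒢 with y ≠ x ∧ (Ed x ∩ Ed y).Nonempty, (∏ e ∈ Ed x ∩ Ed y, a e)⁻¹ ≤ ρ⁻¹) →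
      pr A a (fun T => ∀ x ∈ 𝒢, ¬ Ed x ⊆ T) ≤
        Real.exp (-((ρ * 𝒢.card / 2) ^ 2 / (4 * A.card)))

/-- Block TUP: most `q`-tuples in `B` are injective, contain no bad pair and have small row
sums. -/
def Stmt_TUP : Prop :=
  ∀ (V : Type) [Fintype V] [DecidableEq V] (B : Finset V) (f : V → V → ℝ) (bad : V → V → Prop)
    [DecidableRel bad] (c δ F η : ℝ) (q : ℕ), 1 ≤ c → 0 < δ → δ ≤ 1 → 1 ≤ F →
    (∀ x y, 0 ≤ f x y ∧ f x y ≤ F) → (∀ x, f x x = 0) → B.Nonempty →
    (∀ x ∈ B, ∑ y ∈ B, f x y ≤ c * B.card) →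
    (((B ×ˢ B).filter (fun z => bad z.1 z.2)).card ≤ η * (B.card : ℝ) ^ 2) →
      (1 - q ^ 2 / B.card - q ^ 2 * η - q * Real.exp (-(δ ^ 2 * q / F))) * (B.card : ℝ) ^ q ≤
        ((Fintype.piFinset (fun _ : Fin q => B)).filter (fun x => Function.Injective x ∧
          (∀ i j, i ≠ j → ¬ bad (x i) (x j)) ∧
          (∀ i, ∑ j, f (x i) (x j) ≤ c * (1 + 2 * δ) * q))).card

/-- Block CNT: counting the tuples which share `j` vertices with a given tuple. -/
def Stmt_CNT : Prop :=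
  ∀ (N q : ℕ) (B : Finset (Fin N)) (a : Sym2 (Fin N) → ℝ) (β : ℕ → ℝ)
    (𝒢 : Finset (Fin q → Fin N)), B.Nonempty → (∀ j, 0 ≤ β j) →
    (∀ x ∈ 𝒢, Function.Injective x ∧ ∀ i, x i ∈ B) →
    (∀ x ∈ 𝒢, ∀ J ⊆ univ.image x, (∏ e ∈ eIn J, a e)⁻¹ ≤ β J.card) →
      ∀ x ∈ 𝒢, ∑ y ∈ 𝒢 with y ≠ x ∧ (eIn (univ.image x) ∩ eIn (univ.image y)).Nonempty,
        (∏ e ∈ eIn (univ.image x) ∩ eIn (univ.image y), a e)⁻¹ ≤
          (B.card : ℝ) ^ q * ∑ j ∈ Finset.Icc 2 q, ((q : ℝ) ^ 2 / B.card) ^ j * β j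

/-- Block KAP: asymptotics of the second moment. -/
def Stmt_KAP : Prop :=
  ∀ (ε δ c : ℝ), 0 < ε → ε ≤ 1 → 0 < δ → 12 * δ ≤ ε / 4 → 0 < c →
    ∀ᶠ N : ℕ in atTop, ∀ q : ℕ, q = ⌊(2 - ε) * Real.log N⌋₊ → ∀ v : ℝ,
      c * (N / q ^ 180 : ℕ) ≤ v → v ≤ N →
        ∑ j ∈ Finset.Icc 2 q, ((q : ℝ) ^ 2 / v) ^ j *
          min (Real.exp 1 * Real.exp (j * ((1 + 12 * δ) * q) / 2))
            ((2 * (q : ℝ) ^ 20) ^ (j * (j - 1) / 2)) ≤ 4 * (q : ℝ) ^ 24 / v ^ 2

/-- Block PROD (from PACK, TUP, CNT, KAP and `RandomMakerLower.subset_cost`): the random graph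
with independent edges of small average cost contains a `q`-clique except with probability
`exp (-c n ^ 2 / q ^ 48)`. -/
def Stmt_PROD : Prop :=
  ∀ (ε δ : ℝ), 0 < ε → ε ≤ 1 → 0 < δ → 12 * δ ≤ ε / 4 → ∃ c : ℝ, 0 < c ∧
    ∀ᶠ N : ℕ in atTop, ∀ q n : ℕ, q = ⌊(2 - ε) * Real.log N⌋₊ → n = N / q ^ 180 →
      ∀ (A : Finset (Fin N)) (a : Sym2 (Fin N) → ℝ), A.card = n →
        (∀ e, 0 ≤ a e ∧ a e ≤ 1) →
        ∑ e ∈ eIn A, fb (((q : ℝ) ^ 26)⁻¹) (a e) ≤ (1 + 8 * δ) * (n.choose 2 : ℕ) →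
        ∑ e ∈ eIn A, (if a e < ((q : ℝ) ^ 20)⁻¹ / 2 then (1 : ℝ) else 0) ≤
          ((q : ℝ) ^ 5)⁻¹ * (n.choose 2 : ℕ) →
        pr (eIn A) a (fun T => (SimpleGraph.fromEdgeSet (T : Set (Sym2 (Fin N)))).CliqueFree q) ≤
          Real.exp (-(c * (n : ℝ) ^ 2 / (q : ℝ) ^ 48))

/-! ## F. Assembly -/

/-- The goal. -/
def Stmt_LOWER : Prop :=
  ∀ ε : ℝ, 0 < ε → ∀ᶠ N : ℕ in atTop, ∀ q : ℕ,
    (q : ℝ) ≤ (2 - ε) * Real.log N → 1 - ε < cliqueProb N q

end Pool.Agent.RandomMakerFull
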